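import Pool.Agent.H20.KH.Stmts
import Pool.Agent.H15.KG.SPC

/-!
# Project KH, module SC2: coordinates in which the matrix of `ψ` is diagonal
-/

set_option autoImplicit false
set_option linter.unusedSectionVars false

open MeasureTheory Set Filter Topology
open scoped ContDiff

namespace Pool.Agent.H20.KH

open Pool.Agent.H84 Pool.Agent.H84.Sym Pool.Agent.H84.Sym.P2x Pool.Agent.H19.KL
open Pool.Agent.H73.KG

section

variable {E : Type} [NormedAddCommGroup E] [InnerProductSpace ℝ E]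
    [FiniteDimensional ℝ E] [MeasurableSpace E] [BorelSpace E]

theorem SC2_gadd {U : E → ℝ} {t C : ℝ} (hU : Pot U t C) {f g h : E → ℝ} (hf : GC f) (hg : GC g)
    (hh : GC h) : cv U h (fun x => f x + g x) = cv U h f + cv U h g := by
  unfold Pool.Agent.H73.KG.cv
  have e1 : (∫ x, h x * (f x + g x) ∂(mu U)) = (∫ x, h x * f x ∂(mu U)) +
      ∫ x, h x * g x ∂(mu U) := by
    rw [← integral_add ((hh.mul hf).integrable hU) ((hh.mul hg).integrable hU)]
    exact integral_congr_ae (ae_of_all _ fun x => by ring)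
  have e2 : (∫ x, (f x + g x) ∂(mu U)) = (∫ x, f x ∂(mu U)) + ∫ x, g x ∂(mu U) :=
    integral_add (hf.integrable hU) (hg.integrable hU)
  rw [e1, e2]
  ring

theorem SC2_gsmul (U f h : E → ℝ) (c : ℝ) : cv U h (fun x => c * f x) = c * cv U h f := by
  unfold Pool.Agent.H73.KG.cv
  have e1 : (∫ x, h x * (c * f x) ∂(mu U)) = c * ∫ x, h x * f x ∂(mu U) := by
    rw [← integral_const_mul]
    exact integral_congr_ae (ae_of_all _ fun x => by ring)
  rw [e1, integral_const_mul]
  ring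

theorem SC2_add {U : E → ℝ} {t C : ℝ} (hU : Pot U t C) {ψ : E → ℝ} (hψ : GC ψ) (v w w' : E) :
    q2 U ψ v (w + w') = q2 U ψ v w + q2 U ψ v w' := by
  unfold q2
  rw [← SC2_gadd hU ((SPC_cen U v).mul (SPC_cen U w)) ((SPC_cen U v).mul (SPC_cen U w')) hψ]
  congr 1
  funext x
  rw [SPC_li_add, SPC_mn_add hU]
  ring

theorem SC2_smul (U ψ : E → ℝ) (v w : E) (c : ℝ) :
    q2 U ψ v (c • w) = c * q2 U ψ v w := by
  unfold q2
  rw [← SC2_gsmul]
  congr 1
  funext x
  rw [SPC_li_smul, SPC_mn_smul]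
  ring

theorem SC2_symm (U ψ : E → ℝ) (v w : E) : q2 U ψ v w = q2 U ψ w v := by
  unfold q2
  congr 1
  funext x
  ring

/-- the bilinear form of the covariances with quadratic functions -/
noncomputable def SC2_B {U : E → ℝ} {t C : ℝ} (hU : Pot U t C) {ψ : E → ℝ} (hψ : GC ψ) :
    E →ₗ[ℝ] E →ₗ[ℝ] ℝ :=
  LinearMap.mk₂ ℝ (q2 U ψ)
    (fun v v' w => by rw [SC2_symm, SC2_add hU hψ, SC2_symm U ψ w v, SC2_symm U ψ w v'])
    (fun c v w => by rw [SC2_symm, SC2_smul, SC2_symm U ψ w v]; rfl)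
    (fun v w w' => SC2_add hU hψ v w w')
    (fun c v w => SC2_smul U ψ v w c)

end

theorem sc2_thm (E : Type) [NormedAddCommGroup E] [InnerProductSpace ℝ E]
    [FiniteDimensional ℝ E] [MeasurableSpace E] [BorelSpace E] : SC2Stmt E := by
  classical
  rintro U t ⟨⟨C, hU⟩, _⟩ ψ hψ
  obtain ⟨N, hN⟩ : ∃ N : ℕ, N = Module.finrank ℝ E := ⟨_, rfl⟩
  obtain ⟨c, m, hmono, hc⟩ := SPC_diag N hN.symm (SC2_B hU hψ) (fun v w => SC2_symm U ψ v w)
  have hc' : ∀ i j, q2 U ψ (c i : E) (c j : E) = if i = j then m i else 0 := fun i j => hc i j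
  have hco : ∀ i j, inner ℝ (c i : E) (c j : E) = if i = j then (1:ℝ) else 0 := by
    intro i j
    exact (orthonormal_iff_ite.mp c.orthonormal) i j
  rw [← hN]
  set e : ℕ → E := fun i => if h : i < N then (c ⟨i, h⟩ : E) else 0 with he
  set m' : ℕ → ℝ := fun i => if h : i < N then m ⟨i, h⟩ else 0 with hm'
  have heN : ∀ i (h : i < N), e i = (c ⟨i, h⟩ : E) := fun i h => by simp [he, h]
  have hmN : ∀ i (h : i < N), m' i = m ⟨i, h⟩ := fun i h => by simp [hm', h]
  refine ⟨e, m', ?_, ?_, ?_, ?_⟩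
  · intro i hi j hj
    rw [heN i hi, heN j hj, hmN i hi, hco, hc']
    simp
  · intro i hi
    simp only [hm']
    rw [dif_neg (by omega)]
  · intro i j hij
    by_cases hj : j < N
    · have hi : i < N := lt_of_le_of_lt hij hj
      rw [hmN i hi, hmN j hj]
      exact hmono _ _ hij
    · have : m' j = 0 := by
        simp only [hm']
        rw [dif_neg hj]
      rw [this, abs_zero]
      exact abs_nonneg _
  · intro ι _ b
    have h1 := SPC_hs b c (SC2_B hU hψ)
    have h2 : ∑ i, ∑ j, (q2 U ψ (b i) (b j)) ^ 2 = ∑ i, ∑ j, (SC2_B hU hψ (b i) (b j)) ^ 2 := rfl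
    rw [h2, h1]
    have b1 : ∀ i j, SC2_B hU hψ (c i) (c j) = if i = j then m i else 0 := hc'
    have b3 : ∀ i : Fin N, ∑ j, (SC2_B hU hψ (c i) (c j)) ^ 2 = m i ^ 2 := by
      intro i
      rw [Finset.sum_eq_single i]
      · rw [b1, if_pos rfl]
      · intro j _ hj
        rw [b1, if_neg hj.symm]
        ring
      · intro h
        exact absurd (Finset.mem_univ i) h
    simp only [b3]
    rw [Finset.sum_range]
    refine Finset.sum_congr rfl fun i _ => ?_
    rw [hmN i i.2]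

end Pool.Agent.H20.KH
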