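import Pool.Agent.H20.KH.Stmts
import Pool.Agent.H33.KG.BAS

/-!
# Project KH, module SP2: splitting of covariances along fibres
-/

set_option autoImplicit false
set_option linter.unusedSectionVars false

open MeasureTheory Set Filter Topology
open scoped ContDiff

namespace Pool.Agent.H20.KH

open Pool.Agent.H84 Pool.Agent.H84.Sym Pool.Agent.H84.Sym.P2x Pool.Agent.H19.KL
open Pool.Agent.H73.KG

section taylor

variable {H : Type} [NormedAddCommGroup H] [InnerProductSpace ℝ H]

/-- second order Taylor bounds along segments -/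
theorem SP2_taylor {V : H → ℝ} (hV : ContDiff ℝ 2 V) {lo hi : ℝ}
    (h1 : ∀ x v : H, lo * ‖v‖ ^ 2 ≤ fderiv ℝ (fderiv ℝ V) x v v)
    (h2 : ∀ x v : H, fderiv ℝ (fderiv ℝ V) x v v ≤ hi * ‖v‖ ^ 2) (a x : H) :
    V a + fderiv ℝ V a (x - a) + lo / 2 * ‖x - a‖ ^ 2 ≤ V x ∧
    V x ≤ V a + fderiv ℝ V a (x - a) + hi / 2 * ‖x - a‖ ^ 2 := by
  set w := x - a with hw
  have hl : ∀ s : ℝ, HasDerivAt (fun s : ℝ => a + s • w) w s := by
    intro s
    have := ((hasDerivAt_id s).smul_const w).const_add a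
    simpa using this
  have hd1 : ∀ s : ℝ, HasDerivAt (fun s : ℝ => V (a + s • w)) (fderiv ℝ V (a + s • w) w) s := by
    intro s
    have e1 : HasFDerivAt V (fderiv ℝ V (a + s • w)) (a + s • w) :=
      (hV.differentiable (by norm_num) (a + s • w)).hasFDerivAt
    exact e1.comp_hasDerivAt s (hl s)
  have hd2 : ∀ s : ℝ, HasDerivAt (fun s : ℝ => fderiv ℝ V (a + s • w) w)
      (fderiv ℝ (fderiv ℝ V) (a + s • w) w w) s := by
    intro s
    have e1 : HasFDerivAt (fderiv ℝ V) (fderiv ℝ (fderiv ℝ V) (a + s • w)) (a + s • w) :=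
      (((hV.fderiv_right (m := 1) (by norm_num)).differentiable (by norm_num))
        (a + s • w)).hasFDerivAt
    have e3 : HasDerivAt (fun s : ℝ => fderiv ℝ V (a + s • w))
      (fderiv ℝ (fderiv ℝ V) (a + s • w) w) s := e1.comp_hasDerivAt s (hl s)
    have e4 := e3.clm_apply (hasDerivAt_const s w)
    simpa using e4
  -- general principle
  have gen : ∀ (f f' f'' : ℝ → ℝ), (∀ s, HasDerivAt f (f' s) s) → (∀ s, HasDerivAt f' (f'' s) s) →
      (∀ s, 0 ≤ f'' s) → f 0 + f' 0 ≤ f 1 := by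
    intro f f' f'' k1 k2 k3
    have m1 : Monotone f' := by
      apply monotone_of_deriv_nonneg
      · exact fun s => (k2 s).differentiableAt
      · intro s
        rw [(k2 s).deriv]
        exact k3 s
    have m2 : MonotoneOn (fun s => f s - f' 0 * s) (Icc 0 1) := by
      have k4 : ∀ s, HasDerivAt (fun s => f s - f' 0 * s) (f' s - f' 0 * 1) s := fun s =>
        (k1 s).sub ((hasDerivAt_id s).const_mul _)
      apply monotoneOn_of_deriv_nonneg (convex_Icc 0 1)
      · exact fun s _ => (k4 s).continuousAt.continuousWithinAt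
      · exact fun s _ => (k4 s).differentiableAt.differentiableWithinAt
      · intro s hs
        rw [interior_Icc] at hs
        rw [(k4 s).deriv]
        have := m1 hs.1.le
        linarith
    have := m2 (left_mem_Icc.2 zero_le_one) (right_mem_Icc.2 zero_le_one) zero_le_one
    simp only at this
    linarith
  have hx : a + (1:ℝ) • w = x := by rw [hw]; simp
  have ha : a + (0:ℝ) • w = a := by simp
  have hq : ∀ (c s : ℝ), HasDerivAt (fun s : ℝ => c / 2 * s ^ 2) (c * s) s := by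
    intro c s
    have := (hasDerivAt_pow 2 s).const_mul (c / 2)
    have e : c / 2 * (((2 : ℕ) : ℝ) * s ^ (2 - 1)) = c * s := by norm_num; ring
    rw [e] at this
    exact this
  have hq2 : ∀ (c s : ℝ), HasDerivAt (fun s : ℝ => c * s) c s := by
    intro c s
    simpa using (hasDerivAt_id s).const_mul c
  constructor
  · have := gen (fun s => V (a + s • w) - (lo * ‖w‖ ^ 2) / 2 * s ^ 2)
      (fun s => fderiv ℝ V (a + s • w) w - (lo * ‖w‖ ^ 2) * s)
      (fun s => fderiv ℝ (fderiv ℝ V) (a + s • w) w w - lo * ‖w‖ ^ 2)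
      (fun s => (hd1 s).sub (hq _ s)) (fun s => (hd2 s).sub (hq2 _ s))
      (fun s => sub_nonneg.2 (h1 _ _))
    simp only [hx, ha] at this
    linarith
  · have := gen (fun s => (hi * ‖w‖ ^ 2) / 2 * s ^ 2 - V (a + s • w))
      (fun s => (hi * ‖w‖ ^ 2) * s - fderiv ℝ V (a + s • w) w)
      (fun s => hi * ‖w‖ ^ 2 - fderiv ℝ (fderiv ℝ V) (a + s • w) w w)
      (fun s => (hq _ s).sub (hd1 s)) (fun s => (hq2 _ s).sub (hd2 s))
      (fun s => sub_nonneg.2 (h2 _ _))
    simp only [hx, ha] at this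
    linarith

/-- a strongly convex function has a critical point -/
theorem SP2_min [FiniteDimensional ℝ H] {V : H → ℝ} {t C : ℝ} (hV : Pot V t C) :
    ∃ a : H, fderiv ℝ V a = 0 := by
  have hc : Continuous V := hV.smooth.continuous
  have ht := hV.pos
  have hlow := pot_lower hV
  have htend : Tendsto V (cocompact H) atTop := by
    have e1 : Tendsto (fun x : H => V 0 - ‖fderiv ℝ V 0‖ * ‖x‖ + t / 2 * ‖x‖ ^ 2) (cocompact H)
        atTop := by
      have e2 : Tendsto (fun r : ℝ => V 0 - ‖fderiv ℝ V 0‖ * r + t / 2 * r ^ 2) atTop atTop := by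
        have e3 : Tendsto (fun r : ℝ => V 0 + r * (t / 2 * r - ‖fderiv ℝ V 0‖)) atTop atTop := by
          apply tendsto_atTop_add_const_left
          apply Tendsto.atTop_mul_atTop₀ tendsto_id
          apply tendsto_atTop_add_const_right
          exact Tendsto.const_mul_atTop (by positivity) tendsto_id
        refine e3.congr fun r => ?_
        ring
      exact e2.comp tendsto_norm_cocompact_atTop
    refine tendsto_atTop_mono (fun x => ?_) e1
    have h1 := hlow x
    have h2 := (fderiv ℝ V 0).le_opNorm x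
    have h3 := neg_abs_le (fderiv ℝ V 0 x)
    rw [Real.norm_eq_abs] at h2
    linarith
  obtain ⟨a, ha⟩ := hc.exists_forall_le htend
  refine ⟨a, ?_⟩
  have : IsLocalMin V a := Filter.Eventually.of_forall ha
  exact this.fderiv_eq_zero

end taylor

section

variable {E : Type} [NormedAddCommGroup E] [InnerProductSpace ℝ E]
    [FiniteDimensional ℝ E] [MeasurableSpace E] [BorelSpace E]

theorem SP2_gauss {b B : ℝ} (hb : 0 < b) :
    Integrable (fun x : E => Real.exp (B * ‖x‖ - b * ‖x‖ ^ 2)) := by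
  have h := (integrable_gauss (E := E) (b := b / 2) (by positivity)).const_mul
    (Real.exp (B ^ 2 / (2 * b)))
  refine h.mono' (by fun_prop) (Eventually.of_forall fun x => ?_)
  rw [Real.norm_eq_abs, abs_of_pos (Real.exp_pos _), ← Real.exp_add]
  apply Real.exp_le_exp.2
  have h1 : 0 ≤ (B - b * ‖x‖) ^ 2 / (2 * b) := by positivity
  have h2 : (B - b * ‖x‖) ^ 2 / (2 * b) = B ^ 2 / (2 * b) - B * ‖x‖ + b / 2 * ‖x‖ ^ 2 := by
    field_simp
    ring
  nlinarith

/-- growth of conditional means -/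
theorem SP2_growth (S : Submodule ℝ E) {U : E → ℝ} {t : ℝ} (hU : BP U t) {F : E → ℝ} (hF : GC F) :
    Gr (cav S U F) := by
  obtain ⟨⟨⟨C, hP⟩, -⟩, hup⟩ := hU
  have htp := hP.pos
  have hsm := hP.smooth
  obtain ⟨A, B, hA, hB, hAB⟩ := P2x.Gr.norm hF.2
  have hsymm : ∀ x u v, fderiv ℝ (fderiv ℝ U) x u v = fderiv ℝ (fderiv ℝ U) x v u := fun x u v =>
    (hP.smooth.contDiffAt.isSymmSndFDerivAt (x := x) (by simp)).eq u v
  have hU2 : ∀ x, ‖fderiv ℝ (fderiv ℝ U) x‖ ≤ 1 := fun x =>
    P4bx.bilin_bound _ (hsymm x) (fun v => le_trans (by positivity) (hP.hess x v))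
      (fun v => by rw [one_mul]; exact hup x v) zero_le_one
  have hlip : ∀ x y, ‖fderiv ℝ U y - fderiv ℝ U x‖ ≤ ‖y - x‖ := by
    intro x y
    have := convex_univ.norm_image_sub_le_of_norm_fderiv_le (𝕜 := ℝ)
      (f := fderiv ℝ U) (fun x _ => ((hsm.fderiv_right (m := 1) (by norm_num)).differentiable
        (by norm_num)) x) (fun x _ => hU2 x) (mem_univ x) (mem_univ y)
    simpa using this
  -- Taylor for `U`
  have hT := SP2_taylor hsm (lo := t) (hi := 1) hP.hess (fun x v => by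
    rw [one_mul]; exact hup x v)
  -- critical points of the sections
  have hcrit : ∀ z : Sᗮ, ∃ a : S, ∀ y : S, fderiv ℝ U ((a : E) + (z : E)) (y : E) = 0 := by
    intro z
    obtain ⟨a, ha⟩ := SP2_min (P4bx.pot_sec S hP (z : E))
    refine ⟨a, fun y => ?_⟩
    have e1 : HasFDerivAt (sec S U (z : E)) ((fderiv ℝ U ((a : E) + (z : E))).comp S.subtypeL) a := by
      have k1 : HasFDerivAt U (fderiv ℝ U ((a : E) + (z : E))) ((a : E) + (z : E)) :=
        (hsm.differentiable (by norm_num) _).hasFDerivAt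
      have k2 : HasFDerivAt (fun x : S => (x : E) + (z : E)) S.subtypeL a :=
        S.subtypeL.hasFDerivAt.add_const _
      exact k1.comp a k2
    rw [e1.fderiv] at ha
    have := congrArg (fun L => L y) ha
    simpa using this
  choose a ha using hcrit
  have hmove : ∀ z : Sᗮ, ‖a z‖ ≤ ‖a 0‖ + 1 / t * ‖z‖ := by
    intro z
    have h1 := (hT ((a z : E) + (z : E)) ((a 0 : E) + (z : E))).1
    have h2 := (hT ((a 0 : E) + (z : E)) ((a z : E) + (z : E))).1
    have e1 : (a 0 : E) + (z : E) - ((a z : E) + (z : E)) = ((a 0 - a z : S) : E) := by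
      rw [Submodule.coe_sub]; abel
    have e2 : (a z : E) + (z : E) - ((a 0 : E) + (z : E)) = ((a z - a 0 : S) : E) := by
      rw [Submodule.coe_sub]; abel
    rw [e1, ha z] at h1
    rw [e2] at h2
    have e3 := ha 0 (a z - a 0)
    rw [Submodule.coe_zero, add_zero] at e3
    have e4 : |fderiv ℝ U ((a 0 : E) + (z : E)) ((a z - a 0 : S) : E)| ≤ ‖z‖ * ‖a z - a 0‖ := by
      have k1 : fderiv ℝ U ((a 0 : E) + (z : E)) ((a z - a 0 : S) : E) =
          (fderiv ℝ U ((a 0 : E) + (z : E)) - fderiv ℝ U (a 0 : E)) ((a z - a 0 : S) : E) := by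
        rw [sub_apply, e3, sub_zero]
      rw [k1]
      refine ((fderiv ℝ U ((a 0 : E) + (z : E)) - fderiv ℝ U (a 0 : E)).le_opNorm _).trans ?_
      rw [Submodule.coe_norm]
      refine mul_le_mul_of_nonneg_right ?_ (norm_nonneg _)
      refine (hlip _ _).trans (le_of_eq ?_)
      rw [add_sub_cancel_left]
    have e5 : ‖((a 0 - a z : S) : E)‖ = ‖a z - a 0‖ := by
      rw [← Submodule.coe_norm, norm_sub_rev]
    have e6 : ‖((a z - a 0 : S) : E)‖ = ‖a z - a 0‖ := (Submodule.coe_norm _).symm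
    rw [e5] at h1
    rw [e6] at h2
    have e7 : t * ‖a z - a 0‖ ^ 2 ≤ ‖z‖ * ‖a z - a 0‖ := by
      have := neg_abs_le (fderiv ℝ U ((a 0 : E) + (z : E)) ((a z - a 0 : S) : E))
      linarith
    have e8 : ‖a z - a 0‖ ≤ 1 / t * ‖z‖ := by
      rcases (norm_nonneg (a z - a 0)).eq_or_lt with h0 | h0
      · rw [← h0]; positivity
      · have : t * ‖a z - a 0‖ ≤ ‖z‖ := by
          rw [pow_two, ← mul_assoc] at e7
          exact le_of_mul_le_mul_right e7 h0
        rw [one_div, inv_mul_eq_div, le_div_iff₀ htp]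
        linarith
    have e9 : ‖a z‖ ≤ ‖a 0‖ + ‖a z - a 0‖ := by
      have := norm_add_le (a 0) (a z - a 0)
      simpa using this
    linarith
  -- constants
  obtain ⟨c₁, hc₁⟩ : ∃ c : ℝ, c = ∫ y : S, Real.exp (0 * ‖y‖ - 1 / 2 * ‖y‖ ^ 2) := ⟨_, rfl⟩
  obtain ⟨c₂, hc₂⟩ : ∃ c : ℝ, c = ∫ y : S, Real.exp (B * ‖y‖ - t / 2 * ‖y‖ ^ 2) := ⟨_, rfl⟩
  have hc₁p : 0 < c₁ := by
    rw [hc₁]
    exact integral_exp_pos (SP2_gauss (by norm_num))
  have hc₂p : 0 < c₂ := by
    rw [hc₂]
    exact integral_exp_pos (SP2_gauss (by positivity))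
  have hden : ∀ z : Sᗮ, Real.exp (-U ((a z : E) + (z : E))) * c₁ ≤ pint S U (fun _ => 1) z := by
    intro z
    have k1 : Integrable (fun x : S => Real.exp (-U ((a z : E) + (z : E))) *
        Real.exp (0 * ‖x - a z‖ - 1 / 2 * ‖x - a z‖ ^ 2)) :=
      ((SP2_gauss (E := S) (b := 1 / 2) (B := 0) (by norm_num)).comp_sub_right (a z)).const_mul _
    have k2 : Integrable (fun x : S => (1:ℝ) * Real.exp (-U ((x : E) + (z : E)))) := by
      have hp := P4bx.rho_pos S hP z
      by_contra hcon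
      unfold pint at hp
      rw [integral_undef hcon] at hp
      exact lt_irrefl _ hp
    have k3 := integral_mono k1 k2 (fun x => by
      simp only
      rw [one_mul, ← Real.exp_add]
      apply Real.exp_le_exp.2
      have := (hT ((a z : E) + (z : E)) ((x : E) + (z : E))).2
      have e1 : (x : E) + (z : E) - ((a z : E) + (z : E)) = ((x - a z : S) : E) := by
        rw [Submodule.coe_sub]; abel
      rw [e1, ha z, ← Submodule.coe_norm] at this
      linarith)
    rw [integral_const_mul, integral_sub_right_eq_self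
      (fun x : S => Real.exp (0 * ‖x‖ - 1 / 2 * ‖x‖ ^ 2)) (a z), ← hc₁] at k3
    exact k3
  have hnum : ∀ z : Sᗮ, |pint S U F z| ≤ Real.exp (-U ((a z : E) + (z : E))) *
      (A * Real.exp (B * (‖z‖ + ‖a z‖)) * c₂) := by
    intro z
    have k1 : Integrable (fun x : S => (Real.exp (-U ((a z : E) + (z : E))) *
        (A * Real.exp (B * (‖z‖ + ‖a z‖)))) *
        Real.exp (B * ‖x - a z‖ - t / 2 * ‖x - a z‖ ^ 2)) :=
      ((SP2_gauss (E := S) (b := t / 2) (B := B) (by positivity)).comp_sub_right (a z)).const_mul _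
    have k3 := norm_integral_le_of_norm_le k1 (Eventually.of_forall fun x : S => by
      show ‖F ((x : E) + (z : E)) * Real.exp (-U ((x : E) + (z : E)))‖ ≤ _
      rw [norm_mul, Real.norm_eq_abs, Real.norm_eq_abs, abs_of_pos (Real.exp_pos _)]
      have e1 : (x : E) + (z : E) - ((a z : E) + (z : E)) = ((x - a z : S) : E) := by
        rw [Submodule.coe_sub]; abel
      have e2 := (hT ((a z : E) + (z : E)) ((x : E) + (z : E))).1
      rw [e1, ha z, ← Submodule.coe_norm] at e2
      have e3 : ‖(x : E) + (z : E)‖ ≤ ‖z‖ + ‖a z‖ + ‖x - a z‖ := by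
        have k4 : (x : E) + (z : E) = ((x - a z : S) : E) + (a z : E) + (z : E) := by
          rw [Submodule.coe_sub]; abel
        rw [k4]
        have k5 := norm_add₃_le (a := ((x - a z : S) : E)) (b := (a z : E)) (c := (z : E))
        rw [← Submodule.coe_norm, ← Submodule.coe_norm, ← Submodule.coe_norm] at k5
        linarith
      have e4 : |F ((x : E) + (z : E))| ≤ A * Real.exp (B * (‖z‖ + ‖a z‖ + ‖x - a z‖)) :=
        (hAB _).trans (mul_le_mul_of_nonneg_left (Real.exp_le_exp.2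
          (mul_le_mul_of_nonneg_left e3 hB)) hA)
      have e5 : Real.exp (-U ((x : E) + (z : E))) ≤
          Real.exp (-U ((a z : E) + (z : E)) - t / 2 * ‖x - a z‖ ^ 2) :=
        Real.exp_le_exp.2 (by linarith)
      refine (mul_le_mul e4 e5 (Real.exp_pos _).le (by positivity)).trans (le_of_eq ?_)
      rw [mul_add B, Real.exp_add, Real.exp_sub, Real.exp_sub, Real.exp_neg]
      field_simp)
    rw [integral_const_mul, integral_sub_right_eq_self
      (fun x : S => Real.exp (B * ‖x‖ - t / 2 * ‖x‖ ^ 2)) (a z), ← hc₂] at k3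
    refine k3.trans (le_of_eq ?_)
    ring
  refine ⟨A * Real.exp (B * ‖a 0‖) * c₂ / c₁, B * (1 + 1 / t), fun z => ?_⟩
  unfold cav
  have hpos := P4bx.rho_pos S hP z
  rw [abs_div, abs_of_pos hpos, div_le_iff₀ hpos]
  refine (hnum z).trans ?_
  have e1 : B * (‖z‖ + ‖a z‖) ≤ B * ‖a 0‖ + B * (1 + 1 / t) * ‖z‖ := by
    have := mul_le_mul_of_nonneg_left (hmove z) hB
    nlinarith
  have e2 : Real.exp (B * (‖z‖ + ‖a z‖)) ≤ Real.exp (B * ‖a 0‖) * Real.exp (B * (1 + 1 / t) * ‖z‖) := by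
    rw [← Real.exp_add]
    exact Real.exp_le_exp.2 e1
  have e3 := mul_le_mul_of_nonneg_left (hden z)
    (show (0:ℝ) ≤ A * Real.exp (B * ‖a 0‖) * c₂ / c₁ * Real.exp (B * (1 + 1 / t) * ‖z‖) by positivity)
  refine le_trans ?_ e3
  have e4 : A * Real.exp (B * ‖a 0‖) * c₂ / c₁ * Real.exp (B * (1 + 1 / t) * ‖z‖) *
      (Real.exp (-U ((a z : E) + (z : E))) * c₁) = Real.exp (-U ((a z : E) + (z : E))) *
      (A * (Real.exp (B * ‖a 0‖) * Real.exp (B * (1 + 1 / t) * ‖z‖)) * c₂) := by
    field_simp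
  rw [e4]
  gcongr

end

theorem sp2_thm (E : Type) [NormedAddCommGroup E] [InnerProductSpace ℝ E]
    [FiniteDimensional ℝ E] [MeasurableSpace E] [BorelSpace E] (hM : MGLStmt E) : SP2Stmt E := by
  intro U t hU S ψ F hψ hF
  have hgr := @SP2_growth E _ _ _ _ _ S U t hU
  obtain ⟨hB, hfb, hfib, hint, -, -⟩ := hM U t hU S
  obtain ⟨⟨⟨Cν, hPν⟩, hprν⟩, -⟩ := hB
  have hg1 : GC (cav S U ψ) := ⟨(hint _ hψ).2.2, hgr hψ⟩
  have hg2 : GC (cav S U F) := ⟨(hint _ hF).2.2, hgr hF⟩
  have hcv : (fun z : Sᗮ => cv (fb S U z) (fun x => ψ ((x : E) + (z : E)))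
      (fun x => F ((x : E) + (z : E)))) =
      fun z => cav S U (fun x => ψ x * F x) z - cav S U ψ z * cav S U F z := by
    funext z
    unfold Pool.Agent.H73.KG.cv
    rw [← hfib, ← hfib, ← hfib]
  have i1 := (hint _ (hψ.mul hF)).2.1
  have i2 : Integrable (fun z => cav S U ψ z * cav S U F z) (mu (mg S U)) :=
    (hg1.mul hg2).integrable hPν
  refine ⟨hg1, ?_, ?_⟩
  · rw [hcv]
    exact i1.sub i2
  · rw [hcv, integral_sub i1 i2]
    unfold Pool.Agent.H73.KG.cv
    rw [(hint _ (hψ.mul hF)).1, (hint _ hψ).1, (hint _ hF).1]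
    ring

end Pool.Agent.H20.KH
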